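import Pool.Agent.Q260.Sok.Main

/-!
# Temperley-Lieb immanants of Hadamard products of Jacobi-Trudi matrices

For `k = 2`, `n = 3` and `τ = 1` the Temperley-Lieb immanant (the determinant) of the entrywise
product of the Jacobi-Trudi matrices of `(26,26,24)/(2)` and `(35,33,33)/(2,2)` has a negative
coefficient.
-/

namespace Pool.Agent.Results.MP_f8aafe_co.NotMonomialPositive

open Finset Pool.Agent.Q260.Sok

/-- Formal power series in the variables `x^(i)_m`, `i < k`, `m = 0, 1, 2, …`. -/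
abbrev Ser (k : ℕ) := MvPowerSeries (Fin k × ℕ) ℂ

/-- The matrix `J_{λ/μ}(x^(i))` with entries `e_{(λ_a - a) - (μ_b - b)}(x^(i))`. -/
noncomputable def J {k n : ℕ} (i : Fin k) (lam mu : Fin n → ℕ) : Matrix (Fin n) (Fin n) (Ser k) :=
  JT ℂ {s : Fin k × ℕ | s.1 = i} lam mu

/-- The entrywise product of the matrices `J_{λ^(i)/μ^(i)}(x^(i))`. -/
noncomputable def hadamardJ {k n : ℕ} (lam mu : Fin k → Fin n → ℕ) :
    Matrix (Fin n) (Fin n) (Ser k) :=
  Matrix.of fun a b => ∏ i, J i (lam i) (mu i) a b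

/-- `λ/μ` is a skew shape and `λ` has exactly `n` nonzero parts. -/
def SkewShape {n : ℕ} (lam mu : Fin n → ℕ) : Prop :=
  Antitone lam ∧ Antitone mu ∧ mu ≤ lam ∧ ∀ a, 0 < lam a

/-- The relations of the Temperley-Lieb algebra `T_{m+1}(2)`. -/
inductive Rel (m : ℕ) : FreeAlgebra ℂ (Fin m) → FreeAlgebra ℂ (Fin m) → Prop
  | sq (i : Fin m) : Rel m (FreeAlgebra.ι ℂ i * FreeAlgebra.ι ℂ i) ((2 : ℂ) • FreeAlgebra.ι ℂ i)
  | near (i j : Fin m) (h : (i : ℕ) + 1 = j ∨ (j : ℕ) + 1 = i) :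
      Rel m (FreeAlgebra.ι ℂ i * FreeAlgebra.ι ℂ j * FreeAlgebra.ι ℂ i) (FreeAlgebra.ι ℂ i)
  | far (i j : Fin m) (h : (i : ℕ) + 2 ≤ j ∨ (j : ℕ) + 2 ≤ i) :
      Rel m (FreeAlgebra.ι ℂ i * FreeAlgebra.ι ℂ j) (FreeAlgebra.ι ℂ j * FreeAlgebra.ι ℂ i)

/-- The Temperley-Lieb algebra `T_{m+1}(2)`. -/
abbrev TL (m : ℕ) := RingQuot (Rel m)

/-- The generators of the Temperley-Lieb algebra. -/
noncomputable def t {m : ℕ} (i : Fin m) : TL m :=
  RingQuot.mkAlgHom ℂ (Rel m) (FreeAlgebra.ι ℂ i)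

/-- `θ` is the algebra map with `θ(s_i) = t_i - 1`. -/
def IsTheta {m : ℕ} (θ : MonoidAlgebra ℂ (Equiv.Perm (Fin (m + 1))) →ₐ[ℂ] TL m) : Prop :=
  ∀ i : Fin m, θ (MonoidAlgebra.of ℂ _ (Equiv.swap i.castSucc i.succ)) = t i - 1

/-- `b` is a basis of the Temperley-Lieb algebra consisting of monomials in the generators. -/
def IsMonomialBasis {m : ℕ} {ι : Type} (b : Module.Basis ι ℂ (TL m)) : Prop :=
  ∀ x, ∃ l : List (Fin m), b x = (l.map t).prod

/-- The Temperley-Lieb immanant of `A` for the basis element `b x`. -/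
noncomputable def imm {m k : ℕ} {ι : Type}
    (θ : MonoidAlgebra ℂ (Equiv.Perm (Fin (m + 1))) →ₐ[ℂ] TL m) (b : Module.Basis ι ℂ (TL m))
    (x : ι) (A : Matrix (Fin (m + 1)) (Fin (m + 1)) (Ser k)) : Ser k :=
  ∑ w : Equiv.Perm (Fin (m + 1)),
    (b.repr (θ (MonoidAlgebra.of ℂ _ w)) x) • ∏ a, A a (w a)

/-! ### Proof -/

/-- The augmentation of the Temperley-Lieb algebra. -/
noncomputable def aug (m : ℕ) : TL m →ₐ[ℂ] ℂ :=
  RingQuot.liftAlgHom ℂ ⟨FreeAlgebra.lift ℂ (fun _ : Fin m => (0 : ℂ)), by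
    intro x y h
    induction h with
    | sq i => simp
    | near i j h => simp
    | far i j h => simp⟩

theorem aug_t {m : ℕ} (i : Fin m) : aug m (t i) = 0 := by
  rw [aug, t, RingQuot.liftAlgHom_mkAlgHom_apply]
  simp

theorem aug_theta {m : ℕ} (θ : MonoidAlgebra ℂ (Equiv.Perm (Fin (m + 1))) →ₐ[ℂ] TL m)
    (hθ : IsTheta θ) (w : Equiv.Perm (Fin (m + 1))) :
    aug m (θ (MonoidAlgebra.of ℂ _ w)) = ((Equiv.Perm.sign w : ℤ) : ℂ) := by
  let f : Equiv.Perm (Fin (m + 1)) →* ℂ :=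
    (((aug m).comp θ : MonoidAlgebra ℂ (Equiv.Perm (Fin (m + 1))) →ₐ[ℂ] ℂ) :
      MonoidAlgebra ℂ (Equiv.Perm (Fin (m + 1))) →* ℂ).comp (MonoidAlgebra.of ℂ _)
  let g : Equiv.Perm (Fin (m + 1)) →* ℂ :=
    ((Int.castRingHom ℂ : ℤ →+* ℂ) : ℤ →* ℂ).comp ((Units.coeHom ℤ).comp Equiv.Perm.sign)
  have h : f = g := by
    apply MonoidHom.eq_of_eqOn_denseM (Equiv.Perm.mclosure_swap_castSucc_succ m)
    rintro _ ⟨i, rfl⟩
    show aug m (θ (MonoidAlgebra.of ℂ _ (Equiv.swap i.castSucc i.succ))) =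
      ((Equiv.Perm.sign (Equiv.swap i.castSucc i.succ) : ℤ) : ℂ)
    rw [hθ i, map_sub, aug_t, map_one, Equiv.Perm.sign_swap]
    · simp
    · exact ne_of_lt (Fin.castSucc_lt_succ)
  exact congrArg (fun F : Equiv.Perm (Fin (m + 1)) →* ℂ => F w) h

theorem aug_basis {m : ℕ} {ι : Type} (b : Module.Basis ι ℂ (TL m)) (hb : IsMonomialBasis b)
    (x : ι) (hx : b x = 1) (y : TL m) : b.repr y x = aug m y := by
  classical
  have h : b.coord x = (aug m).toLinearMap := by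
    apply b.ext
    intro z
    rw [Module.Basis.coord_apply, Module.Basis.repr_self, Finsupp.single_apply]
    show _ = aug m (b z)
    split_ifs with hz
    · rw [hz, hx, map_one]
    · obtain ⟨l, hl⟩ := hb z
      cases l with
      | nil =>
        exfalso
        apply hz
        apply b.injective
        rw [hl, hx]
        simp
      | cons i l =>
        rw [hl, List.map_cons, List.prod_cons, map_mul, aug_t, zero_mul]
  have := congrArg (fun F : TL m →ₗ[ℂ] ℂ => F y) h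
  simpa using this

theorem imm_eq_det {m k : ℕ} {ι : Type}
    (θ : MonoidAlgebra ℂ (Equiv.Perm (Fin (m + 1))) →ₐ[ℂ] TL m) (hθ : IsTheta θ)
    (b : Module.Basis ι ℂ (TL m)) (hb : IsMonomialBasis b) (x : ι) (hx : b x = 1)
    (A : Matrix (Fin (m + 1)) (Fin (m + 1)) (Ser k)) : imm θ b x A = A.det := by
  rw [imm, ← Matrix.det_transpose, Matrix.det_apply]
  refine Finset.sum_congr rfl fun w _ => ?_
  simp only [Matrix.transpose_apply]
  rw [aug_basis b hb x hx, aug_theta θ hθ, Units.smul_def, ← Int.cast_smul_eq_zsmul ℂ]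

theorem map_elem {σ : Type} (V : Set σ) (k : ℤ) :
    MvPowerSeries.map (Int.castRingHom ℂ) (elem ℤ V k) = elem ℂ V k := by
  classical
  ext u
  rw [MvPowerSeries.coeff_map, coeff_elem, coeff_elem]
  split_ifs <;> simp

theorem explicit :
    ∃ u, ∃ c : ℝ, c < 0 ∧ MvPowerSeries.coeff u (hadamardJ (k := 2) (n := 3)
      ![![26, 26, 24], ![35, 33, 33]] ![![2, 0, 0], ![2, 2, 0]]).det = (c : ℂ) := by
  have emb : ∀ i : Fin 2, Function.Injective (fun m : ℕ => ((i, m) : Fin 2 × ℕ)) := by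
    intro i a b h
    exact (Prod.ext_iff.1 h).2
  obtain ⟨u, hu⟩ := det_neg (σ := Fin 2 × ℕ) {s | s.1 = 0} {s | s.1 = 1}
    ((Finset.range 60).map ⟨fun m : ℕ => ((0, m) : Fin 2 × ℕ), emb 0⟩)
    ((Finset.range 60).map ⟨fun m : ℕ => ((1, m) : Fin 2 × ℕ), emb 1⟩)
    (by
      rw [Set.disjoint_left]
      rintro s (h1 : s.1 = 0) (h2 : s.1 = 1)
      rw [h1] at h2
      exact absurd h2 (by decide))
    (by
      intro s hs
      rw [Finset.mem_map] at hs
      obtain ⟨a, _, rfl⟩ := hs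
      rfl)
    (by
      intro s hs
      rw [Finset.mem_map] at hs
      obtain ⟨a, _, rfl⟩ := hs
      rfl)
    (by simp) (by simp)
  refine ⟨u, ((MvPowerSeries.coeff u (Matrix.det (Matrix.of fun i j : Fin 3 =>
      JT ℤ {s : Fin 2 × ℕ | s.1 = 0} ![26, 26, 24] ![2, 0, 0] i j *
      JT ℤ {s : Fin 2 × ℕ | s.1 = 1} ![35, 33, 33] ![2, 2, 0] i j)) : ℤ) : ℝ),
      by exact_mod_cast hu, ?_⟩
  have h : (hadamardJ (k := 2) (n := 3)
      ![![26, 26, 24], ![35, 33, 33]] ![![2, 0, 0], ![2, 2, 0]]).det =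
      MvPowerSeries.map (Int.castRingHom ℂ) (Matrix.det (Matrix.of fun i j : Fin 3 =>
      JT ℤ {s : Fin 2 × ℕ | s.1 = 0} ![26, 26, 24] ![2, 0, 0] i j *
      JT ℤ {s : Fin 2 × ℕ | s.1 = 1} ![35, 33, 33] ![2, 2, 0] i j)) := by
    rw [RingHom.map_det]
    congr 1
    ext1 i j
    rw [RingHom.mapMatrix_apply, Matrix.map_apply, Matrix.of_apply, map_mul, hadamardJ,
      Matrix.of_apply, Fin.prod_univ_two]
    simp only [J, JT, map_elem, Matrix.cons_val_zero, Matrix.cons_val_one]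
  rw [h, MvPowerSeries.coeff_map]
  simp

theorem shape1 : SkewShape (n := 3) ![26, 26, 24] ![2, 0, 0] := by
  refine ⟨?_, ?_, ?_, ?_⟩
  · intro i j hij
    fin_cases i <;> fin_cases j <;> simp_all
  · intro i j hij
    fin_cases i <;> fin_cases j <;> simp_all
  · intro i
    fin_cases i <;> simp
  · intro i
    fin_cases i <;> simp

theorem shape2 : SkewShape (n := 3) ![35, 33, 33] ![2, 2, 0] := by
  refine ⟨?_, ?_, ?_, ?_⟩
  · intro i j hij
    fin_cases i <;> fin_cases j <;> simp_all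
  · intro i j hij
    fin_cases i <;> fin_cases j <;> simp_all
  · intro i
    fin_cases i <;> simp
  · intro i
    fin_cases i <;> simp

/-- The answer to the question is negative: `k = 2`, `n = 3`, `τ = 1`, shapes `(26,26,24)/(2)` and
`(35,33,33)/(2,2)`. -/
theorem result :
    ∃ lam mu : Fin 2 → Fin 3 → ℕ,
      lam = ![![26, 26, 24], ![35, 33, 33]] ∧ mu = ![![2, 0, 0], ![2, 2, 0]] ∧
      (∀ i, SkewShape (lam i) (mu i)) ∧
      ∃ u, ∃ c : ℝ, c < 0 ∧
        MvPowerSeries.coeff u (hadamardJ lam mu).det = (c : ℂ) ∧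
        ∀ (θ : MonoidAlgebra ℂ (Equiv.Perm (Fin 3)) →ₐ[ℂ] TL 2), IsTheta θ →
        ∀ (ι : Type) (b : Module.Basis ι ℂ (TL 2)), IsMonomialBasis b → ∀ x, b x = 1 →
          MvPowerSeries.coeff u (imm θ b x (hadamardJ lam mu)) = (c : ℂ) := by
  obtain ⟨u, c, hc, hu⟩ := explicit
  refine ⟨_, _, rfl, rfl, ?_, u, c, hc, hu, ?_⟩
  · intro i
    fin_cases i
    · exact shape1
    · exact shape2
  · intro θ hθ ι b hb x hx
    rw [imm_eq_det θ hθ b hb x hx]
    exact hu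

end Pool.Agent.Results.MP_f8aafe_co.NotMonomialPositive
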